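import Pool.Agent.H94.T1.S6
import Pool.Agent.H82.T1.ALLK

/-!
# T1: few polynomials are singular above a small prime
-/

set_option autoImplicit false

namespace Pool.T1

open Polynomial Matrix Pool.HYP Pool.TOW Pool.AVS IsDedekindDomain

theorem smsk (hSM1 : SM1KStmt) (hSNT : SNTKStmt) : SMSKStmt := by
  classical
  intro R _ _ K _ _ _ O π hGR hU c₀ hc₀ hX hfinP b B hb hB hsum g D h hg hD hBT
  set N : ℕ := (Fam π g D h).ncard with hN
  have hFfin : (Fam π g D h).Finite :=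
    ((allk R K O π hGR (fun m => (hU m).1) g h).1).subset fun f hf => hf.1
  have hNm : ∀ P : HeightOneSpectrum R, 2 ≤ Nm P := by
    intro P
    have h1 : Finite (R ⧸ P.asIdeal) := hGR.fin P.asIdeal P.ne_bot
    have h2 : Nontrivial (R ⧸ P.asIdeal) := Ideal.Quotient.nontrivial_iff.2 P.isPrime.ne_top
    exact Finite.one_lt_card
  have hnmD : 1 ≤ nmD D := by
    rw [nmD]
    have h1 : ∀ s : Finset (HeightOneSpectrum R), 1 ≤ ∏ P ∈ s, Nm P := fun s =>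
      Finset.one_le_prod' fun P _ => (by norm_num : 1 ≤ 2).trans (hNm P)
    exact Nat.mul_pos (h1 _) (h1 _)
  -- the finite set of primes
  have hXfin : {P : HeightOneSpectrum R | c₀ * (Nm P ^ 2 * nmD D) ≤ qq O ^ h ∧ P ∉ D.T ∧
      P ∉ D.T'}.Finite := by
    refine (hfinP (qq O ^ h)).subset ?_
    rintro P ⟨h1, _, _⟩
    have h2 := hNm P
    have h3 : Nm P ≤ c₀ * (Nm P ^ 2 * nmD D) := by
      calc Nm P ≤ Nm P ^ 2 := Nat.le_self_pow (by norm_num) _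
        _ ≤ Nm P ^ 2 * nmD D := Nat.le_mul_of_pos_right _ hnmD
        _ ≤ c₀ * (Nm P ^ 2 * nmD D) := Nat.le_mul_of_pos_left _ hc₀
    exact h3.trans h1
  set X : Finset (HeightOneSpectrum R) := hXfin.toFinset with hXdef
  have hXmem : ∀ P, P ∈ X ↔ c₀ * (Nm P ^ 2 * nmD D) ≤ qq O ^ h ∧ P ∉ D.T ∧ P ∉ D.T' := by
    intro P
    rw [hXdef, Set.Finite.mem_toFinset, Set.mem_ofPred_eq]
  set S : HeightOneSpectrum R → Set R[X] := fun P => {f ∈ Fam π g D h | Sing P.asIdeal f}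
    with hS
  have hsub : {f ∈ Fam π g D h | ∃ P : HeightOneSpectrum R, c₀ * (Nm P ^ 2 * nmD D) ≤ qq O ^ h ∧
      Sing P.asIdeal f} ⊆ ⋃ P ∈ X, S P := by
    rintro f ⟨hf, P, h1, h2⟩
    have h3 : P ∉ D.T ∧ P ∉ D.T' := by
      constructor
      · intro h4
        exact hSNT R K O π hGR g D h hD f hf P (Or.inl h4) h2
      · intro h4
        exact hSNT R K O π hGR g D h hD f hf P (Or.inr h4) h2
    simp only [Set.mem_iUnion]
    exact ⟨P, (hXmem P).2 ⟨h1, h3.1, h3.2⟩, hf, h2⟩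
  have hUfin : (⋃ P ∈ X, S P).Finite := by
    refine hFfin.subset ?_
    intro f hf
    simp only [Set.mem_iUnion] at hf
    obtain ⟨P, _, hf, _⟩ := hf
    exact hf
  have hle1 := Set.ncard_le_ncard hsub hUfin
  have hle2 : (⋃ P ∈ X, S P).ncard ≤ ∑ P ∈ X, (S P).ncard := by
    exact Finset.set_ncard_biUnion_le X S
  have hle3 : ∀ P ∈ X, ((S P).ncard : ℝ) ≤ N * ((Nm P : ℝ) ^ 2 - 1)⁻¹ := by
    intro P hP
    obtain ⟨h1, h2, h3⟩ := (hXmem P).1 hP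
    have h4 := hSM1 R K O π hGR hU c₀ hX g D h hg hD P h2 h3 h1
    have h5 : (2 : ℝ) ≤ Nm P := by exact_mod_cast hNm P
    have h6 : (0 : ℝ) < (Nm P : ℝ) ^ 2 - 1 := by nlinarith
    have h7 : (((Nm P ^ 2 - 1 : ℕ)) : ℝ) = (Nm P : ℝ) ^ 2 - 1 := by
      rw [Nat.cast_sub (Nat.one_le_pow _ _ ((by norm_num : 0 < 2).trans_le (hNm P)))]
      push_cast
      ring
    rw [← div_eq_mul_inv, le_div_iff₀ h6, ← h7]
    exact_mod_cast h4
  have hle4 : ∑ P ∈ X, ((Nm P : ℝ) ^ 2 - 1)⁻¹ ≤ 1 / 8 := by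
    apply hsum X
    intro P hP
    obtain ⟨_, _, h3⟩ := (hXmem P).1 hP
    by_contra h4
    exact h3 (hBT (hB P (not_lt.1 h4)))
  have hfinal : (8 : ℝ) * ({f ∈ Fam π g D h | ∃ P : HeightOneSpectrum R,
      c₀ * (Nm P ^ 2 * nmD D) ≤ qq O ^ h ∧ Sing P.asIdeal f}.ncard : ℝ) ≤ N := by
    have h1 : (({f ∈ Fam π g D h | ∃ P : HeightOneSpectrum R,
      c₀ * (Nm P ^ 2 * nmD D) ≤ qq O ^ h ∧ Sing P.asIdeal f}.ncard : ℕ) : ℝ) ≤
        ∑ P ∈ X, ((S P).ncard : ℝ) := by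
      exact_mod_cast hle1.trans hle2
    have h2 : ∑ P ∈ X, ((S P).ncard : ℝ) ≤ N * (1 / 8) := by
      refine (Finset.sum_le_sum hle3).trans ?_
      rw [← Finset.mul_sum]
      exact mul_le_mul_of_nonneg_left hle4 (Nat.cast_nonneg _)
    linarith
  exact_mod_cast hfinal

end Pool.T1
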