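import Pool.Agent.H94.T1.S6
import Pool.Agent.H94.HYP.DenE

/-!
# T1: few values of `v` for which two polynomials are not coprime
-/

set_option autoImplicit false

namespace Pool.T1

open Polynomial

theorem t1nk : T1NKStmt := by
  classical
  intro K _ p hp _ G H c hG hc
  have := Fact.mk hp
  set V : Set K := {v : K | ¬ IsCoprime G (H + C (c * v ^ p))} with hV
  have hch : ∀ v ∈ V, ∃ π : K[X], π.Monic ∧ Irreducible π ∧ π ∣ G ∧
      π ∣ (H + C (c * v ^ p)) := fun v hv => Pool.HYP.Den.exists_monic_irred_common hG hv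
  choose! π h1 h2 h3 h4 using hch
  have hinjOn : Set.InjOn π V := by
    intro v hv v' hv' hvv
    by_contra hne
    have h5 : π v ∣ C (c * (v - v') ^ p) := by
      have h6 : (C (c * (v - v') ^ p) : K[X]) =
          (H + C (c * v ^ p)) - (H + C (c * v' ^ p)) := by
        rw [sub_pow_char, mul_sub, C_sub]
        ring
      rw [h6]
      exact dvd_sub (h4 v hv) (hvv ▸ h4 v' hv')
    have h7 : c * (v - v') ^ p ≠ 0 := mul_ne_zero hc (pow_ne_zero _ (sub_ne_zero.2 hne))
    have h8 : IsUnit (C (c * (v - v') ^ p) : K[X]) := isUnit_C.2 (isUnit_iff_ne_zero.2 h7)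
    exact (h2 v hv).not_isUnit (isUnit_of_dvd_unit h5 h8)
  have hkey : ∀ A : Finset K, (∀ v ∈ A, v ∈ V) → A.card ≤ G.natDegree := by
    intro A hA
    have h5 := Pool.HYP.Den.primes_le hG 1 (A.image π) (by
      intro P hP
      rw [Finset.mem_image] at hP
      obtain ⟨v, hv, rfl⟩ := hP
      exact ⟨h1 v (hA v hv), h2 v (hA v hv), (h2 v (hA v hv)).natDegree_pos, h3 v (hA v hv)⟩)
    rw [mul_one, Finset.card_image_of_injOn (by
      intro a ha b hb hab
      exact hinjOn (hA a ha) (hA b hb) hab)] at h5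
    exact h5
  have hfin : V.Finite := by
    by_contra hinf
    obtain ⟨A, hA, hcard⟩ := Set.Infinite.exists_subset_card_eq hinf (G.natDegree + 1)
    have := hkey A (fun v hv => hA hv)
    omega
  refine ⟨hfin, ?_⟩
  rw [Set.ncard_eq_toFinset_card V hfin]
  exact hkey _ (fun v hv => (Set.Finite.mem_toFinset hfin).1 hv)

end Pool.T1
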